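import Pool.Agent.Helper6_AvgControl.Main

/-!
# No averaged null controllability for random fractional heat equations with `γ ≤ 1/2`

For all `G`, `G₀`, `T` as in the problem, all random diffusivities `α ≥ 0` with `E[α²] < ∞` and all
`γ ∈ (0, 1/2]` the system `y_t + α(ω) A^γ y = B u` is not null controllable in average.
The definitions are in `Pool/Agent/Helper6_AvgControl/Defs.lean`.
-/

set_option autoImplicit false

open MeasureTheory Set
open Pool.Agent.Helper6_AvgControl

namespace Pool.Agent.Results.MP_966485_an.NoAveragedControl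

/-- **Negative answer to Q1.**  Let `G ⊆ ℝⁿ` be a bounded open set (no regularity of the boundary is
needed), `G₀ ⊆ G` a nonempty open set such that `G \ closure G₀` has nonempty interior, and `T > 0`.
Let `(lam, e)` be the spectral resolution of the Dirichlet Laplacian of `G`. Let `α ≥ 0` be a random
variable with `E[α²] < ∞` and `0 < γ ≤ 1/2`.  Then `y_t + α(ω) A^γ y = B u` is not null controllable
in average in time `T`. -/
theorem result {n : ℕ} (G G₀ : Set (EuclideanSpace ℝ (Fin n)))
    (_hG : IsOpen G) (_hGb : Bornology.IsBounded G)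
    (_hG₀ : IsOpen G₀) (hG₀ne : G₀.Nonempty) (_hG₀G : G₀ ⊆ G)
    (hint : (interior (G \ closure G₀)).Nonempty)
    (T : ℝ) (hT : 0 < T)
    (lam : ℕ → ℝ) (e : HilbertBasis ℕ ℝ (L2 G)) (hS : IsDirichletSpectrum G lam e)
    {Ω : Type*} [MeasurableSpace Ω] (P : Measure Ω) [IsProbabilityMeasure P]
    (α : Ω → ℝ) (hα : Measurable α) (hα0 : ∀ ω, 0 ≤ α ω)
    (hα2 : Integrable (fun ω => α ω ^ 2) P)
    (γ : ℝ) (hγ0 : 0 < γ) (hγ1 : γ ≤ 1 / 2) :
    ¬ NullControllableInAverage G₀ lam e γ T P α := by
  have hL2 : MemLp α 2 P := (memLp_two_iff_integrable_sq hα.aestronglyMeasurable).2 hα2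
  exact no_control hG₀ne hint hT hS hα (Filter.Eventually.of_forall hα0)
    (hL2.integrable (by norm_num)) hγ0 hγ1

end Pool.Agent.Results.MP_966485_an.NoAveragedControl
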